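import Pool.Agent.H30.AX.Targets

/-!
# MP_70ba79_ag, board `aw_modules`, module PJ3
-/

set_option autoImplicit false

namespace Pool.Agent.H33.AX

open MvPolynomial SC Pool.Agent.H27.LV Pool.Agent.H30.AV Pool.Agent.H30.AW Pool.Agent.H30.AX

/-- dehomogenisation -/
private noncomputable def dh (k : Type) [Field k] {n : ℕ} (j0 : Fin (n + 1)) :
    Fin (n + 1) → MvPolynomial (Fin n) k :=
  Fin.insertNth (α := fun _ => MvPolynomial (Fin n) k) j0 1 X

private theorem aeval_dh {k F : Type} [Field k] [Field F] [Algebra k F] {n : ℕ}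
    (j0 : Fin (n + 1)) (y : Fin n → F) (g : MvPolynomial (Fin (n + 1)) k) :
    aeval y (aeval (dh k j0) g) =
      aeval (Fin.insertNth (α := fun _ => F) j0 1 y : Fin (n + 1) → F) g := by
  have h : (aeval y).comp (aeval (dh k j0)) =
      aeval (Fin.insertNth (α := fun _ => F) j0 1 y : Fin (n + 1) → F) := by
    apply MvPolynomial.algHom_ext
    intro j
    rw [AlgHom.comp_apply, aeval_X, aeval_X]
    refine Fin.succAboveCases j0 ?_ (fun i => ?_) j
    · unfold dh
      rw [Fin.insertNth_apply_same, Fin.insertNth_apply_same, map_one]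
    · unfold dh
      rw [Fin.insertNth_apply_succAbove, Fin.insertNth_apply_succAbove, aeval_X]
  exact DFunLike.congr_fun h g

/-- coefficients of `P (T, T X)` -/
private theorem coeff_blow {k : Type} [Field k] {r : ℕ} (P : MvPolynomial (Fin (r + 2)) k) :
    ∀ m : Fin (r + 2) →₀ ℕ,
    coeff (Finsupp.tail m) ((aeval (Fin.cons Polynomial.X
      (fun i => Polynomial.X * Polynomial.C (X i)) :
      Fin (r + 2) → Polynomial (MvPolynomial (Fin (r + 1)) k)) P).coeff (∑ i, m i)) =
      coeff m P := by
  induction P using MvPolynomial.induction_on' with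
  | monomial m' c =>
    intro m
    have h1 : aeval (Fin.cons Polynomial.X
        (fun i => Polynomial.X * Polynomial.C (X i)) :
        Fin (r + 2) → Polynomial (MvPolynomial (Fin (r + 1)) k)) (monomial m' c) =
        Polynomial.C (monomial (Finsupp.tail m') c) * Polynomial.X ^ (∑ i, m' i) := by
      rw [aeval_monomial, Finsupp.prod_fintype _ _ (fun i => pow_zero _), Fin.prod_univ_succ,
        Fin.sum_univ_succ]
      simp only [Fin.cons_zero, Fin.cons_succ, mul_pow]
      rw [Finset.prod_mul_distrib, Finset.prod_pow_eq_pow_sum]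
      have h2 : (algebraMap k (Polynomial (MvPolynomial (Fin (r + 1)) k))) c =
          Polynomial.C (C c) := rfl
      have h3 : (monomial (Finsupp.tail m') c : MvPolynomial (Fin (r + 1)) k) =
          C c * ∏ i, X i ^ m' i.succ := by
        rw [monomial_eq, Finsupp.prod_fintype _ _ (fun i => pow_zero _)]
        rfl
      rw [h2, h3, map_mul, map_prod]
      simp only [map_pow]
      ring
    rw [h1, Polynomial.coeff_C_mul, Polynomial.coeff_X_pow]
    by_cases hs : ∑ i, m i = ∑ i, m' i
    · rw [if_pos hs, mul_one, coeff_monomial, coeff_monomial]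
      by_cases ht : Finsupp.tail m' = Finsupp.tail m
      · have hm : m' = m := by
          ext i
          have h4 : ∀ i : Fin (r + 1), m' i.succ = m i.succ := fun i => by
            have := DFunLike.congr_fun ht i
            simpa only [Finsupp.tail_apply] using this
          refine Fin.cases ?_ h4 i
          rw [Fin.sum_univ_succ, Fin.sum_univ_succ (f := m')] at hs
          rw [Finset.sum_congr rfl (fun i _ => h4 i)] at hs
          omega
        rw [if_pos ht, if_pos hm]
      · rw [if_neg ht, if_neg]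
        intro h
        exact ht (by rw [h])
    · rw [if_neg hs, mul_zero, coeff_zero, coeff_monomial, if_neg]
      intro h
      exact hs (by rw [h])
  | add p q hp hq =>
    intro m
    rw [map_add, Polynomial.coeff_add, coeff_add, coeff_add, hp, hq]

private theorem indep_blow {k F : Type} [Field k] [Field F] [Algebra k F] {r : ℕ}
    (w : Fin (r + 1) → F) (hw : AlgebraicIndependent k w) :
    AlgebraicIndependent k (Fin.cons RatFunc.X (fun i => RatFunc.X * RatFunc.C (w i)) :
      Fin (r + 2) → RatFunc F) := by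
  let z' : Fin (r + 2) → Polynomial F :=
    Fin.cons Polynomial.X (fun i => Polynomial.X * Polynomial.C (w i))
  have hz' : AlgebraicIndependent k z' := by
    rw [algebraicIndependent_iff]
    intro P hP
    let φ : Polynomial (MvPolynomial (Fin (r + 1)) k) →ₐ[k] Polynomial F :=
      Polynomial.mapAlgHom (aeval w)
    have h1 : φ.comp (aeval (Fin.cons Polynomial.X
        (fun i => Polynomial.X * Polynomial.C (X i)) :
        Fin (r + 2) → Polynomial (MvPolynomial (Fin (r + 1)) k))) = aeval z' := by
      apply MvPolynomial.algHom_ext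
      intro j
      rw [AlgHom.comp_apply, aeval_X, aeval_X]
      refine Fin.cases ?_ (fun i => ?_) j
      · simp [φ, z']
      · simp [φ, z']
    have h2 := DFunLike.congr_fun h1 P
    rw [AlgHom.comp_apply, hP] at h2
    have h3 : Function.Injective φ := by
      intro a b hab
      apply Polynomial.map_injective (aeval w : MvPolynomial (Fin (r + 1)) k →ₐ[k] F).toRingHom
      · exact hw
      · exact hab
    have h4 := (map_eq_zero_iff φ h3).1 h2
    ext m
    rw [← coeff_blow P m, h4]
    simp
  have h5 := hz'.map' (f := IsScalarTower.toAlgHom k (Polynomial F) (RatFunc F))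
    (RatFunc.algebraMap_injective F)
  have h6 : ((IsScalarTower.toAlgHom k (Polynomial F) (RatFunc F)) ∘ z') =
      (Fin.cons RatFunc.X (fun i => RatFunc.X * RatFunc.C (w i)) :
      Fin (r + 2) → RatFunc F) := by
    funext j
    refine Fin.cases ?_ (fun i => ?_) j
    · simp [z']
    · simp only [Function.comp_apply, z', Fin.cons_succ, map_mul]
      congr 1
  rw [h6] at h5
  exact h5

private theorem aeval_smul {k F : Type} [Field k] [Field F] [Algebra k F] {n d : ℕ} (t : F)
    (z : Fin n → F) (g : MvPolynomial (Fin n) k) (hg : g.IsHomogeneous d) :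
    aeval (fun j => t * z j) g = t ^ d * aeval z g := by
  rw [aeval_def, aeval_def, eval₂_eq', eval₂_eq', Finset.mul_sum]
  refine Finset.sum_congr rfl fun m hm => ?_
  have h1 := hg (mem_support_iff.1 hm)
  have h2 : ∏ i, (t * z i) ^ m i = t ^ d * ∏ i, z i ^ m i := by
    simp only [mul_pow]
    rw [Finset.prod_mul_distrib, Finset.prod_pow_eq_pow_sum]
    congr 2
    rw [← h1, Finsupp.weight_apply, Finsupp.sum_fintype _ _ (fun i => by simp)]
    simp
  rw [h2]
  ring

private theorem dim_dh {k : Type} [Field k] {n r : ℕ} (j0 : Fin (n + 1))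
    (Q : Set (MvPolynomial (Fin (n + 1)) k)) (hQ : ∀ g ∈ Q, ∃ d, g.IsHomogeneous d)
    (hdim : DimLE Q (r + 1)) :
    DimLE {g' : MvPolynomial (Fin n) k | ∃ g ∈ Q, g' = aeval (dh k j0) g} r := by
  intro F _ _ y hy s hs
  let z1 : Fin (n + 1) → F := Fin.insertNth (α := fun _ => F) j0 1 y
  let z : Fin (n + 1) → RatFunc F := fun j => RatFunc.X * algebraMap F (RatFunc F) (z1 j)
  refine hdim (RatFunc F) z ?_ (Fin.cons j0 fun i => j0.succAbove (s i)) ?_
  · intro g hg
    obtain ⟨d, hd⟩ := hQ g hg
    have h1 := hy _ ⟨g, hg, rfl⟩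
    rw [aeval_dh] at h1
    have h2 : aeval (fun j => algebraMap F (RatFunc F) (z1 j)) g = 0 := by
      have h3 := MvPolynomial.aeval_algebraMap_apply (RatFunc F) z1 g
      rw [h1, map_zero] at h3
      exact h3
    rw [aeval_smul (k := k) RatFunc.X (fun j => algebraMap F (RatFunc F) (z1 j)) g hd, h2,
      mul_zero]
  · have h1 := indep_blow _ hs
    have h2 : (fun i => z ((Fin.cons j0 fun i => j0.succAbove (s i) : Fin (r + 2) → Fin (n + 1)) i))
        = (Fin.cons RatFunc.X (fun i => RatFunc.X * RatFunc.C (y (s i))) :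
      Fin (r + 2) → RatFunc F) := by
      funext j
      refine Fin.cases ?_ (fun i => ?_) j
      · simp only [Fin.cons_zero, z, z1]
        rw [Fin.insertNth_apply_same, map_one, mul_one]
      · simp only [Fin.cons_succ, z, z1]
        rw [Fin.insertNth_apply_succAbove]
        rfl
    rw [h2]
    exact h1

/-- the bijection of the monomials -/
private noncomputable def tau (n e : ℕ) (j0 : Fin (n + 1)) : Pol n e ≃ Mon (n + 1) e where
  toFun f := ⟨Fin.insertNth (α := fun _ => ℕ) j0 (e - ∑ i, f.1 i) f.1, by
    rw [Fin.sum_univ_succAbove _ j0, Fin.insertNth_apply_same]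
    simp only [Fin.insertNth_apply_succAbove]
    have := f.2
    omega⟩
  invFun g := ⟨fun i => g.1 (j0.succAbove i), by
    have h := g.2
    rw [Fin.sum_univ_succAbove _ j0] at h
    exact le_trans (Nat.le_add_left _ _) h.le⟩
  left_inv f := by
    apply Subtype.ext
    funext i
    simp
  right_inv g := by
    apply Subtype.ext
    funext i
    refine Fin.succAboveCases j0 ?_ (fun i => ?_) i
    · simp only [Fin.insertNth_apply_same]
      have h := g.2
      rw [Fin.sum_univ_succAbove _ j0] at h
      omega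
    · simp only [Fin.insertNth_apply_succAbove]

private theorem fv_eq {k K : Type} [Field k] [Field K] [Algebra k K] {n e : ℕ} (j0 : Fin (n + 1))
    (a : Mon (n + 1) e → k) (z : Fin (n + 1) → K) (hz : z j0 = 1) :
    pv (fun M => a (tau n e j0 M)) (fun i => z (j0.succAbove i)) = fv a z := by
  unfold pv fv
  rw [← Equiv.sum_comp (tau n e j0) fun M => algebraMap k K (a M) * ∏ j, z j ^ M.1 j]
  refine Finset.sum_congr rfl fun M _ => ?_
  congr 1
  rw [Fin.prod_univ_succAbove _ j0, hz, one_pow, one_mul]
  refine Finset.prod_congr rfl fun i _ => ?_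
  simp [tau]

private theorem pole_eq {k K : Type} [Field k] [Field K] [Algebra k K] {n : ℕ} (j0 : Fin (n + 1))
    (v : DV k K) (z : Fin (n + 1) → K) (hz : z j0 = 1) :
    poleOrder v (fun i => z (j0.succAbove i)) = poleOrder v z := by
  unfold poleOrder
  apply le_antisymm
  · refine Finset.sup_le fun i _ => ?_
    exact Finset.le_sup (f := fun j => (-(v.ord (z j))).toNat) (Finset.mem_univ (j0.succAbove i))
  · refine Finset.sup_le fun j _ => ?_
    refine Fin.succAboveCases j0 ?_ (fun i => ?_) j
    · rw [hz, v.ord_one]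
      simp
    · exact Finset.le_sup (f := fun i => (-(v.ord (z (j0.succAbove i)))).toNat)
        (Finset.mem_univ i)

theorem pf_PJ3 (hVE3 : T_VE3) : T_PJ3 := by
  intro k _ _ _ m n r e q Q hm2 hr he hQ hdim hq
  have h1 : ∀ j0 : Fin (n + 1), _ := fun j0 =>
    hVE3 k m n r e q {g' : MvPolynomial (Fin n) k | ∃ g ∈ Q, g' = aeval (dh k j0) g} hm2 hr he
      (dim_dh j0 Q hQ hdim) hq
  choose Δ B hΔ hB1 hB using h1
  refine ⟨∏ j0, rename (Prod.map id (tau n e j0)) (Δ j0), ∑ j0, B j0, ?_, ?_, ?_⟩
  · rw [Finset.prod_ne_zero_iff]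
    intro j0 _ h0
    apply hΔ j0
    apply rename_injective _ (Function.injective_id.prodMap (tau n e j0).injective)
    rw [h0, map_zero]
  · exact le_trans (hB1 0) (Finset.single_le_sum (f := B) (fun _ _ => Nat.zero_le _)
      (Finset.mem_univ 0))
  intro a ha K _ _ _ htr S z D hD ⟨j0, hj0⟩ hzQ hnc hfv horb
  have ha' : eval (fun p : Fin q × Pol n e => (fun i M => a i (tau n e j0 M)) p.1 p.2) (Δ j0) ≠
      0 := by
    intro h0
    apply ha
    rw [map_prod, Finset.prod_eq_zero (Finset.mem_univ j0)]
    rw [eval_rename]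
    exact h0
  have hins : (Fin.insertNth (α := fun _ => K) j0 1 (fun i => z (j0.succAbove i)) :
      Fin (n + 1) → K) = z := by
    funext j
    refine Fin.succAboveCases j0 ?_ (fun i => ?_) j
    · rw [Fin.insertNth_apply_same, hj0]
    · rw [Fin.insertNth_apply_succAbove]
  have hmain := hB j0 (fun i M => a i (tau n e j0 M)) ha' K htr S
    (fun i => z (j0.succAbove i)) D hD
    (by
      rintro g' ⟨g, hg, rfl⟩
      rw [aeval_dh, hins]
      exact hzQ g hg)
    (by
      obtain ⟨j, hj⟩ := hnc
      have hne : j ≠ j0 := by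
        rintro rfl
        exact hj ⟨1, by rw [map_one, hj0]⟩
      obtain ⟨i, hi⟩ := Fin.exists_succAbove_eq hne
      exact ⟨i, by rw [hi]; exact hj⟩)
    (fun i => by rw [fv_eq j0 (a i) z hj0]; exact hfv i)
    (fun v hv i => by
      rw [fv_eq j0 (a i) z hj0, pole_eq j0 v z hj0]
      exact horb v hv i)
  have hdeg : deg k (fun i => z (j0.succAbove i)) = deg k z := by
    unfold deg
    exact finsum_congr fun v => pole_eq j0 v z hj0
  rw [hdeg] at hmain
  have hχ : 0 ≤ canDeg D + (S.card : ℤ) := by
    by_contra hneg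
    push Not at hneg
    have h2 : (0 : ℤ) ≤ (deg k z : ℤ) := by positivity
    have h3 : (1 : ℤ) ≤ (B j0 : ℤ) := by exact_mod_cast hB1 j0
    nlinarith
  have hBle : (B j0 : ℤ) ≤ ((∑ j, B j : ℕ) : ℤ) := by
    exact_mod_cast Finset.single_le_sum (f := B) (fun _ _ => Nat.zero_le _) (Finset.mem_univ j0)
  exact le_trans hmain (mul_le_mul_of_nonneg_right hBle hχ)

end Pool.Agent.H33.AX
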